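import Pool.Agent.Lib_helper45.ThinMain

/-!
# Degrees of maximal c.e. ideals in the atomless Boolean algebra

For every decidable presentation of the countable atomless Boolean algebra, the Turing degrees
which contain a maximal c.e. ideal are exactly the computably enumerable Turing degrees.
-/

namespace Pool.Agent.Results.MP_460ee8_lc.DegreesOfMaximalIdeals

open Pool.Agent.CeIdeals

/-- Let `Q` be a nontrivial atomless Boolean algebra with a decidable presentation `P` (so `Q` is
the countable atomless Boolean algebra). A Turing degree contains a maximal ideal of `Q` if and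
only if it is the degree of some c.e. set. -/
theorem result {Q : Type*} [BooleanAlgebra Q] [Nontrivial Q]
    (atomless : ∀ x : Q, x ≠ ⊥ → ∃ y : Q, ⊥ < y ∧ y < x) (P : DecidablePresentation Q) :
    {a : TuringDegree | ∃ I : Order.Ideal Q, P.IsMaximal I ∧ degree (P.codes I) = a} =
      {a : TuringDegree | ∃ A : Set ℕ, REPred (fun n => n ∈ A) ∧ degree A = a} := by
  ext a
  constructor
  · rintro ⟨I, hI, rfl⟩
    exact ⟨P.codes I, hI.ce, rfl⟩
  · rintro ⟨A, hA, rfl⟩
    obtain ⟨I, hI, hd⟩ := Pool.Agent.Lib45.exists_maximal atomless P hA
    exact ⟨I, hI, hd⟩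

end Pool.Agent.Results.MP_460ee8_lc.DegreesOfMaximalIdeals
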